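import Mathlib

namespace Pool.Agent.H.MP_eefa83_lc

open FirstOrder Language Cardinal

def Lu : Language := ⟨fun _ => Empty, fun n => {_k : ℕ // n = 1}⟩

def P (k : ℕ) : Lu.Relations 1 := ⟨k, rfl⟩

def Col {M : Type} [Lu.Structure M] (k : ℕ) (x : M) : Prop := Structure.RelMap (P k) ![x]

def Rich (M : Type) [Lu.Structure M] : Prop :=
  ∀ (m r : ℕ) (c : Fin m → Prop) (y : Fin r → M), ∃ x, (∀ i, x ≠ y i) ∧ ∀ k : Fin m, Col k x ↔ c k

def Ag {γ M N : Type} [Lu.Structure M] [Lu.Structure N] (m : ℕ) (s : Finset γ) (v : γ → M) (w : γ → N) : Prop :=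
  ∀ i ∈ s, (∀ j ∈ s, v i = v j ↔ w i = w j) ∧ ∀ k < m, Col k (v i) ↔ Col k (w i)

lemma tv {γ : Type} : ∀ t : Lu.Term γ, ∃ i, t = .var i
  | .var i => ⟨i, rfl⟩
  | .func f _ => f.elim

lemma step {β M N : Type} [Lu.Structure M] [Lu.Structure N] (h : Rich M) {n m : ℕ} {s : Finset (β ⊕ Fin (n + 1))}
    {t : Finset (β ⊕ Fin n)} (ht : ∀ i, Sum.map id Fin.castSucc i ∈ s → i ∈ t) {v : β → M} {w : β → N}
    {x : Fin n → M} {y : Fin n → N} (a : Ag m t (Sum.elim v x) (Sum.elim w y)) (b : N) :
    ∃ c, Ag m s (Sum.elim v (Fin.snoc x c)) (Sum.elim w (Fin.snoc y b)) := by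
  have k : ∃ c, (∀ i ∈ t, c = Sum.elim v x i ↔ b = Sum.elim w y i) ∧ ∀ k < m, Col k c ↔ Col k b := by
    by_cases e : ∃ i ∈ t, b = Sum.elim w y i
    · obtain ⟨i, hi, rfl⟩ := e
      exact ⟨_, a i hi⟩
    · obtain ⟨c, c1, c2⟩ := h m _ (fun k => Col k b) fun j => Sum.elim v x (t.equivFin.symm j)
      exact ⟨c, fun i hi => iff_of_false (by simpa using c1 (t.equivFin ⟨i, hi⟩)) fun u => e ⟨i, hi, u⟩,
        fun k hk => c2 ⟨k, hk⟩⟩
  obtain ⟨c, c1, c2⟩ := k
  have d : ∀ i : β ⊕ Fin (n + 1), (∃ j, i = Sum.map id Fin.castSucc j) ∨ i = .inr (Fin.last n) := by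
    rintro (i | i)
    · exact .inl ⟨.inl i, rfl⟩
    · exact i.lastCases (.inr rfl) fun j => .inl ⟨.inr j, rfl⟩
  have e : ∀ {X : Type} (v : β → X) (x : Fin n → X) c j, Sum.elim v (Fin.snoc x c : Fin (n + 1) → X)
      (Sum.map id Fin.castSucc j) = Sum.elim v x j := by
    rintro X v x c (j | j) <;> simp
  refine ⟨c, fun i hi => ⟨fun j hj => ?_, fun k hk => ?_⟩⟩
  · rcases d i with ⟨i, rfl⟩ | rfl <;> rcases d j with ⟨j, rfl⟩ | rfl
    · simpa only [e] using (a i (ht i hi)).1 j (ht j hj)
    · simpa only [e, Sum.elim_inr, Fin.snoc_last, eq_comm] using c1 i (ht i hi)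
    · simpa only [e, Sum.elim_inr, Fin.snoc_last] using c1 j (ht j hj)
    · simp
  · rcases d i with ⟨i, rfl⟩ | rfl
    · simpa only [e] using (a i (ht i hi)).2 k hk
    · simpa using c2 k hk

lemma bf {β M N : Type} [Lu.Structure M] [Lu.Structure N] (hM : Rich M) (hN : Rich N) {n : ℕ}
    (φ : Lu.BoundedFormula β n) : ∃ m s, ∀ (v : β → M) (w : β → N) x y,
      Ag m s (Sum.elim v x) (Sum.elim w y) → (φ.Realize v x ↔ φ.Realize w y) := by
  classical
  induction φ with
  | falsum => exact ⟨0, ∅, fun _ _ _ _ _ => .rfl⟩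
  | equal t u =>
    obtain ⟨i, rfl⟩ := tv t
    obtain ⟨j, rfl⟩ := tv u
    exact ⟨0, {i, j}, fun _ _ _ _ a => (a i (by simp)).1 j (by simp)⟩
  | rel R t =>
    obtain ⟨k, rfl⟩ := R
    obtain ⟨i, hi⟩ := tv (t 0)
    refine ⟨k + 1, {i}, fun _ _ _ _ a => ?_⟩
    obtain rfl : t = ![.var i] := funext fun j => by rw [Subsingleton.elim j 0, hi]; rfl
    have e : ∀ {X : Type} [Lu.Structure X] (u : _ → X), (fun j => Term.realize u ((![.var i] : Fin 1 → Lu.Term _) j)) =
      ![u i] := fun u => funext fun j => by rw [Subsingleton.elim j 0]; rfl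
    simp only [BoundedFormula.Realize, e]
    exact (a i (by simp)).2 k k.lt_succ_self
  | imp _ _ a b =>
    obtain ⟨m, s, a⟩ := a
    obtain ⟨m', s', b⟩ := b
    exact ⟨max m m', s ∪ s', fun _ _ _ _ h => imp_congr
      (a _ _ _ _ fun i hi => ⟨fun j hj => (h i (by simp [hi])).1 j (by simp [hj]),
        fun k hk => (h i (by simp [hi])).2 k (by omega)⟩)
      (b _ _ _ _ fun i hi => ⟨fun j hj => (h i (by simp [hi])).1 j (by simp [hj]),
        fun k hk => (h i (by simp [hi])).2 k (by omega)⟩)⟩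
  | all _ a =>
    obtain ⟨m, s, a⟩ := a
    refine ⟨m, s.preimage (Sum.map id Fin.castSucc) (Function.injective_id.sumMap
      (Fin.castSucc_injective _)).injOn, fun v w x y h => ⟨fun k b => ?_, fun k b => ?_⟩⟩
    · obtain ⟨c, hc⟩ := step hM (fun i => Finset.mem_preimage.2) h b
      exact (a _ _ _ _ hc).1 (k c)
    · obtain ⟨c, hc⟩ := step hN (fun i => Finset.mem_preimage.2) (fun i hi => ⟨fun j hj =>
        ((h i hi).1 j hj).symm, fun k hk => ((h i hi).2 k hk).symm⟩) b
      exact (a _ _ _ _ fun i hi => ⟨fun j hj => ((hc i hi).1 j hj).symm, fun k hk =>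
        ((hc i hi).2 k hk).symm⟩).2 (k c)

lemma cf {β M : Type} [Lu.Structure M] (k : ℕ) (i : β) (v : β → M) :
    ((P k).formula₁ (.var i)).Realize v ↔ Col k (v i) := Formula.realize_rel₁

lemma Rich.tr {β M N : Type} [Lu.Structure M] [Lu.Structure N] (h : Rich M) {v : β → M} {w : β → N}
    (e : ∀ φ : Lu.Formula β, φ.Realize w ↔ φ.Realize v) : Rich N := fun m r c y => by
  classical
  have := (e (.iAlls (Fin r) (.iExs Unit ((Formula.iInf fun i : Fin r => ∼((Term.var (.inr ())).equal
    (.var (.inl (.inr i))))) ⊓ .iInf fun k : Fin m => if c k then (P k).formula₁ (.var (.inr ())) else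
      ∼((P k).formula₁ (.var (.inr ()))))))).2 (by
    rw [Formula.realize_iAlls]
    intro y
    obtain ⟨x, a, b⟩ := h m r c y
    refine Formula.realize_iExs.2 ⟨fun _ => x, Formula.realize_inf.2 ⟨by simpa using a,
      Formula.realize_iInf.2 fun k => ?_⟩⟩
    split_ifs with u
    · exact (cf _ _ _).2 ((b k).2 u)
    · exact Formula.realize_not.2 fun t => u ((b k).1 ((cf _ _ _).1 t)))
  obtain ⟨x, a⟩ := Formula.realize_iExs.1 (Formula.realize_iAlls.1 this y)
  obtain ⟨a, b⟩ := Formula.realize_inf.1 a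
  refine ⟨x (), by simpa using a, fun k => ?_⟩
  have := Formula.realize_iInf.1 b k
  split_ifs at this with u
  · have t := (cf _ _ _).1 this
    exact iff_of_true t u
  · exact iff_of_false (fun t => Formula.realize_not.1 this ((cf _ _ _).2 t)) u

instance : Lu.Structure (ℕ → Bool) := ⟨fun f => f.elim, fun R x => x ⟨0, by simp [R.2]⟩ R.1 = true⟩

lemma r0 : Rich (ℕ → Bool) := fun m r c y => by
  classical
  refine ⟨fun k => if h : k < m then decide (c ⟨k, h⟩) else if h : k - m < r then !(y ⟨_, h⟩ k) else true,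
    fun i e => by simpa using congrFun e (m + i), fun k => ?_⟩
  change dite (k.1 < m) _ _ = true ↔ _
  rw [dif_pos k.2, decide_eq_true_iff]
  rfl

theorem fo {M : Type} [Lu.Structure M] [Nonempty M] [M ⊨ Lu.completeTheory (ℕ → Bool)] (A : Set M) (n : ℕ)
    {l : Cardinal} (hl : 2 ^ ℵ₀ ≤ l) (hA : #A ≤ l) : #((Lu[[A]].completeTheory M).CompleteType (Fin n)) ≤ l := by
  classical
  have hM : Rich M := r0.tr (v := Empty.elim) (w := Empty.elim) fun φ => by
    simpa only [Sentence.Realize, Subsingleton.elim default (Empty.elim)] using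
      realize_iff_of_model_completeTheory (ℕ → Bool) M φ
  choose N v hv using Theory.exists_modelType_is_realized_in (Lu[[A]].completeTheory M) (α := Fin n)
  letI : ∀ p, Lu.Structure (N p) := fun p => (Lu.lhomWithConstants A).reduct (N p)
  haveI := fun p => (Lu.lhomWithConstants A).isExpansionOn_reduct (N p)
  have tr : ∀ p (φ : Lu.Formula A), φ.Realize (fun a => (Lu.con a : N p)) ↔ φ.Realize fun a => (a : M) :=
    fun p φ => (Formula.realize_equivSentence _ φ).symm.trans ((realize_iff_of_model_completeTheory M (N p) _).trans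
      (Formula.realize_equivSentence _ φ))
  have l0 : ℵ₀ ≤ l := (cantor _).le.trans hl
  refine (mk_le_of_injective (f := fun p => fun i : Fin n => ((fun k => Col k (v p i), fun j => v p i = v p j),
    if h : ∃ a : A, v p i = Lu.con a then some h.choose else none)) fun p q e => ?_).trans ?_
  · have e3 : ∀ {p q}, (∀ i, (if h : ∃ a : A, v p i = Lu.con a then some h.choose else none) =
        if h : ∃ a : A, v q i = Lu.con a then some h.choose else none) → ∀ i (a : A), v p i = Lu.con a →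
          v q i = Lu.con a := fun {p q} e i a h => by
      have k := e i
      rw [dif_pos ⟨a, h⟩] at k
      split_ifs at k with u
      obtain rfl : a = u.choose := Subtype.ext ((tr p ((Term.var a).equal (.var u.choose))).1
        (h.symm.trans ((Option.some.inj k) ▸ Exists.choose_spec (⟨a, h⟩ : ∃ a : A, v p i = Lu.con a))))
      exact u.choose_spec
    have e4 : ∀ i (a : A), v p i = Lu.con a ↔ v q i = Lu.con a := fun i a =>
      ⟨e3 (fun i => congrArg Prod.snd (congrFun e i)) i a, e3 (fun i => congrArg Prod.snd (congrFun e i).symm) i a⟩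
    refine SetLike.ext fun φ => ?_
    rw [← hv p, ← hv q, Theory.CompleteType.mem_typeOf, Theory.CompleteType.mem_typeOf, Formula.Realize,
      Formula.Realize, ← BoundedFormula.realize_constantsVarsEquiv, ← BoundedFormula.realize_constantsVarsEquiv]
    obtain ⟨m, s, h⟩ := bf (hM.tr (tr p)) (hM.tr (tr q)) (BoundedFormula.constantsVarsEquiv
      (Formula.equivSentence.symm φ))
    refine h _ _ _ _ ?_
    rintro ((a | i) | i) -
    · refine ⟨?_, fun k _ => (cf k a _).symm.trans ((tr p _).trans ((tr q _).symm.trans (cf k a _)))⟩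
      rintro ((b | j) | j) -
      · exact (tr p ((Term.var a).equal (.var b))).trans (tr q ((Term.var a).equal (.var b))).symm
      · exact eq_comm.trans ((e4 j a).trans eq_comm)
      · exact j.elim0
    · refine ⟨?_, fun k _ => (congrFun (congrArg (·.1.1) (congrFun e i)) k).to_iff⟩
      rintro ((b | j) | j) -
      · exact e4 i b
      · exact (congrFun (congrArg (·.1.2) (congrFun e i)) j).to_iff
      · exact j.elim0
    · exact i.elim0
  · simp only [mk_pi, prod_const, mk_fin, lift_id, mk_prod, mk_option, mk_Prop, mk_nat]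
    refine (power_le_power_right (mul_le_of_le l0 (mul_le_of_le l0 hl ?_) (add_le_of_le l0 hA
      (one_le_aleph0.trans l0)))).trans (power_nat_le l0)
    exact (power_le_power_left two_ne_zero natCast_lt_aleph0.le).trans hl

end Pool.Agent.H.MP_eefa83_lc
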