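import Pool.Agent.H.MP_eefa83_lc.A

namespace Pool.Agent.H.MP_eefa83_lc

open Cardinal MeasureTheory Filter Topology ENNReal Set

section
variable {Ω X : Type} [MeasurableSpace Ω] {μ : Measure Ω} [TopologicalSpace X] [DiscreteTopology X]

lemma sm {n : ℕ} (f : Fin n → Ω →ₘ[μ] X) {Y : Type} [TopologicalSpace Y] (g : (Fin n → X) → Y) :
    StronglyMeasurable fun ω => g fun i => f i ω := by
  induction n generalizing Y with
  | zero => simpa only [Subsingleton.elim _ default] using stronglyMeasurable_const (b := g default)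
  | succ n ih =>
    have e : ∀ ω, (Fin.cons (f 0 ω) (Fin.tail fun i => f i ω) : Fin (n + 1) → X) = fun i => f i ω :=
      fun ω => Fin.cons_self_tail fun i => f i ω
    simpa only [e] using (continuous_of_discreteTopology (f := fun p : _ × _ =>
      g (Fin.cons p.1 p.2))).comp_stronglyMeasurable ((f 0).stronglyMeasurable.prodMk
        (ih (Fin.tail f) id) : StronglyMeasurable fun ω => (f 0 ω, Fin.tail fun i => f i ω))

lemma cpl {d : (Ω →ₘ[μ] X) → (Ω →ₘ[μ] X) → ℝ≥0∞} (hd : ∀ f g, d f g = μ {ω | f ω ≠ g ω}) :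
    (∀ x y, d x y = 0 → x = y) ∧ ∀ u : ℕ → _, (∀ ε > 0, ∃ k, ∀ m ≥ k, ∀ n ≥ k, d (u m) (u n) < ε) →
      ∃ x, Tendsto (fun n => d (u n) x) atTop (𝓝 0) := by
  refine ⟨fun f g h => AEEqFun.ext (hd f g ▸ h :), fun u h => ?_⟩
  choose k hk using fun i : ℕ => h (2⁻¹ ^ i) (by simp [pos_iff_ne_zero])
  obtain ⟨r, r1, r2⟩ := extraction_forall_of_eventually (fun i => eventually_ge_atTop (k i ⊔ k (i - 1)))
  have a : ∀ i, μ {ω | u (r i) ω ≠ u (r (i + 1)) ω} ≤ 2⁻¹ ^ i := fun i =>
    hd _ _ ▸ (hk i _ (le_sup_left.trans (r2 i)) _ (le_sup_right.trans (r2 (i + 1)))).le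
  have c : ∀ {ω i}, (∀ j ≥ i, u (r j) ω = u (r (j + 1)) ω) → ∀ j ≥ i, u (r j) ω = u (r i) ω := fun h j hj => by
    induction j, hj using Nat.le_induction with
    | base => rfl
    | succ j hj ih => rw [← h j hj, ih]
  have b : ∀ᵐ ω ∂μ, ∃ x, Tendsto (fun i => u (r i) ω) atTop (𝓝 x) := by
    filter_upwards [ae_eventually_notMem (ne_top_of_le_ne_top (by simp) (ENNReal.tsum_le_tsum a))] with ω h
    obtain ⟨i, h⟩ := eventually_atTop.1 h
    exact ⟨_, tendsto_atTop_of_eventually_const (c fun j hj => not_not.1 (h j hj))⟩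
  obtain ⟨g, g1, g2⟩ := exists_stronglyMeasurable_limit_of_tendsto_ae (fun i => (u (r i)).aestronglyMeasurable) b
  refine ⟨.mk g g1.aestronglyMeasurable, ENNReal.tendsto_atTop_zero.2 fun ε ε0 => ?_⟩
  obtain ⟨i, hi⟩ := ((ENNReal.Tendsto.mul_const (b := 3) (ENNReal.tendsto_pow_atTop_nhds_zero_of_lt_one
    (r := 2⁻¹) (by simp)) (by simp)).eventually_le_const (by simpa using ε0)).exists
  refine ⟨k i, fun n hn => le_trans ?_ hi⟩
  calc _ ≤ μ ({ω | u n ω ≠ u (r i) ω} ∪ ⋃ j, {ω | u (r (i + j)) ω ≠ u (r (i + j + 1)) ω}) := by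
        refine hd _ _ ▸ measure_mono_ae ?_
        filter_upwards [g2, AEEqFun.coeFn_mk g g1.aestronglyMeasurable] with ω a b e
        by_contra z
        exact e ((not_not.1 fun t => z (.inl t)).trans ((tendsto_nhds_unique (tendsto_atTop_of_eventually_const
          (c fun j hj => not_not.1 fun t => z (.inr (mem_iUnion.2 ⟨j - i, by simpa [hj] using t⟩)))) a).trans b.symm))
    _ ≤ 2⁻¹ ^ i + ∑' j, 2⁻¹ ^ (i + j) := (measure_union_le _ _).trans (add_le_add
      (hd _ _ ▸ (hk i _ hn _ (le_sup_left.trans (r2 i))).le) ((measure_iUnion_le _).trans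
        (ENNReal.tsum_le_tsum fun j => a _)))
    _ = _ := by
      simp only [pow_add, ENNReal.tsum_mul_left, ENNReal.tsum_geometric, one_sub_inv_two, inv_inv]
      ring

end

noncomputable def coin (ι : Type) : Measure (ι → Bool) := .infinitePi fun _ => ProbabilityTheory.uniformOn univ

instance (ι : Type) : IsProbabilityMeasure (coin ι) := by
  unfold coin
  infer_instance

lemma cyl {ι : Type} (s : Finset ι) (c : ι → Bool) : coin ι {ω | ∀ i ∈ s, ω i = c i} = 2⁻¹ ^ s.card := by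
  have := Measure.infinitePi_pi (fun _ : ι => ProbabilityTheory.uniformOn (univ : Set Bool)) (s := s)
    (t := fun i => {c i}) fun _ _ => measurableSet_singleton _
  simp only [ProbabilityTheory.uniformOn_univ, Measure.count_singleton, Finset.prod_const] at this
  exact this.trans (by simp)

lemma atomless {ι : Type} [Infinite ι] (s : Set (ι → Bool)) (hs : MeasurableSet s) (h : 0 < coin ι s) :
    ∃ t ⊆ s, MeasurableSet t ∧ 0 < coin ι t ∧ coin ι t < coin ι s := by
  classical
  obtain ⟨n, hn⟩ := ((ENNReal.tendsto_pow_atTop_nhds_zero_of_lt_one (r := 2⁻¹) (by simp)).eventually_lt_const h).exists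
  obtain ⟨F, rfl⟩ := Infinite.exists_subset_card_eq ι n
  by_contra! k
  refine h.ne' (measure_mono_null (t := ⋃ c : F → Bool,
    s ∩ {ω | ∀ i ∈ F, ω i = Function.extend (↑) c (fun _ : ι => true) i})
    (fun ω hω => mem_iUnion.2 ⟨fun i => ω i, hω, fun i hi =>
      (Subtype.val_injective.extend_apply (fun i : F => ω i) _ ⟨i, hi⟩).symm⟩) (measure_iUnion_null fun c => ?_))
  by_contra z
  exact (k _ inter_subset_left (hs.inter (MeasurableSet.pi F.countable_toSet fun _ _ => measurableSet_singleton _))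
    (pos_iff_ne_zero.2 z)).not_gt
    (((measure_mono inter_subset_right).trans_eq (cyl _ _)).trans_lt hn)

lemma card : ∃ l : Cardinal.{0}, 2 ^ ℵ₀ ≤ l ∧ l < l ^ ℵ₀ := by
  let c : ℕ → Cardinal.{0} := fun n => n.rec ℵ₀ fun _ a => 2 ^ a
  refine ⟨sum c, le_sum c 1, (sum_lt_prod c (fun _ => sum c) fun n => (cantor _).trans_le
    (le_sum c (n + 1))).trans_eq ?_⟩
  simp

end Pool.Agent.H.MP_eefa83_lc
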